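import Pool.Agent.W761.CP.Defs

/-!
# Project CP, part BUMP: many disjoint bumps
-/

set_option autoImplicit false

open MeasureTheory Metric
open scoped ENNReal FourierTransform SchwartzMap InnerProductSpace ContDiff

namespace Pool.Agent.W446.CP.Bump
open Pool.Agent.W761.CP
open Pool.Agent.Helper209.CX (Ed L2d)

noncomputable section

/-- the element of `L²` attached to a continuous function with compact support -/
def el {d : ℕ} (f : Ed d → ℂ) (hf : Continuous f) (hc : HasCompactSupport f) : L2d d :=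
  (hf.memLp_of_hasCompactSupport (μ := volume) (p := 2) hc).toLp f

theorem el_ae {d : ℕ} (f : Ed d → ℂ) (hf : Continuous f) (hc : HasCompactSupport f) :
    (el f hf hc : Ed d → ℂ) =ᵐ[volume] f :=
  MemLp.coeFn_toLp _

theorem inner_el {d : ℕ} (f g : Ed d → ℂ) (hf : Continuous f) (hc : HasCompactSupport f)
    (hg : Continuous g) (hgc : HasCompactSupport g) :
    ⟪el f hf hc, el g hg hgc⟫_ℂ = ∫ x, ⟪f x, g x⟫_ℂ := by
  rw [L2.inner_def]
  refine integral_congr_ae ?_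
  filter_upwards [el_ae f hf hc, el_ae g hg hgc] with x h1 h2
  rw [h1, h2]

theorem norm_el {d : ℕ} (f : Ed d → ℂ) (hf : Continuous f) (hc : HasCompactSupport f) :
    ‖el f hf hc‖ ^ 2 = ∫ x, ‖f x‖ ^ 2 := by
  have h1 : ⟪el f hf hc, el f hf hc⟫_ℂ = ((‖el f hf hc‖ ^ 2 : ℝ) : ℂ) := by
    rw [inner_self_eq_norm_sq_to_K]; push_cast; rfl
  have h2 : ⟪el f hf hc, el f hf hc⟫_ℂ = ((∫ x, ‖f x‖ ^ 2 : ℝ) : ℂ) := by
    rw [inner_el, ← integral_complex_ofReal]
    refine integral_congr_ae (Filter.Eventually.of_forall fun x => ?_)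
    beta_reduce
    rw [inner_self_eq_norm_sq_to_K]; push_cast; rfl
  rw [h1] at h2
  exact_mod_cast h2

theorem norm_sum_sq {d : ℕ} {ι : Type} [Fintype ι] (s : ι → ℂ) (v : ι → L2d d)
    (h : Pairwise fun i j => ⟪v i, v j⟫_ℂ = 0) :
    ‖∑ i, s i • v i‖ ^ 2 = ∑ i, ‖s i‖ ^ 2 * ‖v i‖ ^ 2 := by
  classical
  have h1 : ⟪∑ i, s i • v i, ∑ i, s i • v i⟫_ℂ = ((‖∑ i, s i • v i‖ ^ 2 : ℝ) : ℂ) := by
    rw [inner_self_eq_norm_sq_to_K]; push_cast; rfl
  have h2 : ⟪∑ i, s i • v i, ∑ i, s i • v i⟫_ℂ = ((∑ i, ‖s i‖ ^ 2 * ‖v i‖ ^ 2 : ℝ) : ℂ) := by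
    rw [sum_inner]
    push_cast
    refine Finset.sum_congr rfl fun i _ => ?_
    rw [inner_sum, Finset.sum_eq_single i]
    · rw [inner_smul_left, inner_smul_right, inner_self_eq_norm_sq_to_K, ← mul_assoc,
        RCLike.conj_mul]
      rfl
    · intro j _ hj
      rw [inner_smul_left, inner_smul_right, h hj.symm]
      simp
    · intro hi; exact absurd (Finset.mem_univ i) hi
  rw [h1] at h2
  exact_mod_cast h2

/-- the weak gradient of a smooth function with compact support -/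
theorem isGrad_el {d : ℕ} (f : Ed d → ℂ) (hf : ContDiff ℝ ∞ f) (hc : HasCompactSupport f)
    (hg : ∀ k, Continuous fun x => fderiv ℝ f x (ev k))
    (hgc : ∀ k, HasCompactSupport fun x => fderiv ℝ f x (ev k)) :
    IsGrad (el f hf.continuous hc) (fun k => el (fun x => fderiv ℝ f x (ev k)) (hg k) (hgc k)) := by
  intro φ k
  have e1 : ∫ x, (el f hf.continuous hc) x * fderiv ℝ (fun y => φ y) x (ev k) =
      ∫ x, f x * fderiv ℝ (fun y => φ y) x (ev k) := by
    refine integral_congr_ae ?_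
    filter_upwards [el_ae f hf.continuous hc] with x h1
    rw [h1]
  have e2 : ∫ x, (el (fun x => fderiv ℝ f x (ev k)) (hg k) (hgc k)) x * φ x =
      ∫ x, fderiv ℝ f x (ev k) * φ x := by
    refine integral_congr_ae ?_
    filter_upwards [el_ae (fun x => fderiv ℝ f x (ev k)) (hg k) (hgc k)] with x h1
    rw [h1]
  rw [e1, e2]
  have hφ : ContDiff ℝ ∞ (fun y => φ y) := φ.smooth'
  have hφ' : Continuous fun x => fderiv ℝ (fun y => φ y) x (ev k) :=
    (hφ.continuous_fderiv (by simp)).clm_apply continuous_const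
  have hφc : Continuous fun x => φ x := hφ.continuous
  refine integral_mul_fderiv_eq_neg_fderiv_mul_of_integrable ?_ ?_ ?_ ?_ ?_
  · exact ((hg k).mul hφc).integrable_of_hasCompactSupport ((hgc k).mul_right)
  · exact (hf.continuous.mul hφ').integrable_of_hasCompactSupport (hc.mul_right)
  · exact (hf.continuous.mul hφc).integrable_of_hasCompactSupport (hc.mul_right)
  · exact fun x _ => (hf.differentiable (by simp)).differentiableAt
  · exact fun x _ => (hφ.differentiable (by simp)).differentiableAt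

/-- scaling of integrals -/
theorem integral_scale {d : ℕ} (F : Ed d → ℝ) (r : ℝ) (b : Ed d) :
    ∫ x : Ed d, F (r • x - b) = |(r ^ d)⁻¹| * ∫ x, F x := by
  have h := Measure.integral_comp_smul (μ := (volume : Measure (Ed d))) (fun y => F (y - b)) r
  rw [h, integral_sub_right_eq_self F b]
  simp

/-! ## The profile -/

/-- centre of the unit cube -/
def cc (d : ℕ) : Ed d := WithLp.toLp 2 fun _ => 1 / 2

/-- a bump in the unit cube -/
def bmp (d : ℕ) : ContDiffBump (cc d) := ⟨1 / 8, 1 / 4, by norm_num, by norm_num⟩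

/-- the complex valued profile -/
def F (d : ℕ) (x : Ed d) : ℂ := ((bmp d x : ℝ) : ℂ)

theorem F_smooth (d : ℕ) : ContDiff ℝ ∞ (F d) :=
  Complex.ofRealCLM.contDiff.comp (bmp d).contDiff

theorem F_zero {d : ℕ} {x : Ed d} (hx : x ∉ closedBall (cc d) (1 / 4)) : F d x = 0 := by
  have h1 : x ∉ Function.support (bmp d) := by
    rw [(bmp d).support_eq]
    exact fun h => hx (ball_subset_closedBall h)
  rw [Function.notMem_support] at h1
  unfold F
  rw [h1]; simp

theorem F_tsupport (d : ℕ) : tsupport (F d) ⊆ closedBall (cc d) (1 / 4) := by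
  refine closure_minimal ?_ isClosed_closedBall
  intro x hx
  by_contra h
  exact hx (F_zero h)

theorem F_compact (d : ℕ) : HasCompactSupport (F d) :=
  HasCompactSupport.of_support_subset_isCompact (isCompact_closedBall (cc d) (1 / 4))
    (subset_tsupport _ |>.trans (F_tsupport d))

theorem F'_zero {d : ℕ} {x : Ed d} (v : Ed d) (hx : x ∉ closedBall (cc d) (1 / 4)) :
    fderiv ℝ (F d) x v = 0 := by
  have h1 : fderiv ℝ (F d) x = 0 := by
    by_contra h
    exact hx (F_tsupport d (support_fderiv_subset ℝ h))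
  rw [h1]; rfl

theorem F_pos (d : ℕ) : 0 < ∫ x, ‖F d x‖ ^ 2 := by
  refine Continuous.integral_pos_of_hasCompactSupport_nonneg_nonzero (x := cc d) ?_ ?_ ?_ ?_
  · exact (F_smooth d).continuous.norm.pow 2
  · exact (F_compact d).comp_left (g := fun z : ℂ => ‖z‖ ^ 2) (by simp)
  · intro x; positivity
  · have : bmp d (cc d) = 1 := (bmp d).one_of_mem_closedBall (by simp [bmp])
    unfold F
    rw [this]; simp

/-! ## The scaled copies -/

/-- shift -/
def bb (d : ℕ) (nn : ℕ) (j : Fin d → ℕ) : Ed d :=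
  WithLp.toLp 2 fun k => (nn : ℝ) / 4 + (j k : ℝ)

/-- scaled copy -/
def fj (d : ℕ) (nn : ℕ) (j : Fin d → ℕ) (x : Ed d) : ℂ := F d ((nn : ℝ) • x - bb d nn j)

theorem fj_smooth (d nn : ℕ) (j : Fin d → ℕ) : ContDiff ℝ ∞ (fj d nn j) := by
  unfold fj
  have h : ContDiff ℝ ∞ (fun x : Ed d => (nn : ℝ) • x - bb d nn j) := by fun_prop
  exact (F_smooth d).comp h

theorem fj_compact (d nn : ℕ) (hn : 0 < nn) (j : Fin d → ℕ) : HasCompactSupport (fj d nn j) := by
  have hn' : (nn : ℝ) ≠ 0 := by positivity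
  have := (F_compact d).comp_homeomorph
    ((Homeomorph.smulOfNeZero (nn : ℝ) hn').trans (Homeomorph.subRight (bb d nn j)))
  exact this

theorem fj_deriv (d nn : ℕ) (j : Fin d → ℕ) (x v : Ed d) :
    fderiv ℝ (fj d nn j) x v = (nn : ℝ) • fderiv ℝ (F d) ((nn : ℝ) • x - bb d nn j) v := by
  have h1 : HasFDerivAt (fun x : Ed d => (nn : ℝ) • x - bb d nn j)
      ((nn : ℝ) • ContinuousLinearMap.id ℝ (Ed d)) x :=
    ((hasFDerivAt_id x).const_smul (nn : ℝ)).sub_const _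
  have h2 : HasFDerivAt (F d) (fderiv ℝ (F d) ((nn : ℝ) • x - bb d nn j))
      ((nn : ℝ) • x - bb d nn j) :=
    (((F_smooth d).differentiable (by simp)).differentiableAt).hasFDerivAt
  have h3 := h2.comp x h1
  have h4 : fderiv ℝ (fj d nn j) x = (fderiv ℝ (F d) ((nn : ℝ) • x - bb d nn j)).comp
      ((nn : ℝ) • ContinuousLinearMap.id ℝ (Ed d)) := h3.fderiv
  rw [h4]
  simp

theorem gj_cont (d nn : ℕ) (j : Fin d → ℕ) (k : Fin d) :
    Continuous fun x => fderiv ℝ (fj d nn j) x (ev k) :=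
  ((fj_smooth d nn j).continuous_fderiv (by simp)).clm_apply continuous_const

theorem gj_compact (d nn : ℕ) (hn : 0 < nn) (j : Fin d → ℕ) (k : Fin d) :
    HasCompactSupport fun x => fderiv ℝ (fj d nn j) x (ev k) :=
  (fj_compact d nn hn j).fderiv_apply ℝ (ev k)

/-- coordinates in the support -/
theorem coord {d nn : ℕ} {j : Fin d → ℕ} {x : Ed d}
    (hx : (nn : ℝ) • x - bb d nn j ∈ closedBall (cc d) (1 / 4)) (k : Fin d) :
    |(nn : ℝ) * x k - (nn : ℝ) / 4 - (j k : ℝ) - 1 / 2| ≤ 1 / 4 := by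
  rw [mem_closedBall, dist_eq_norm] at hx
  have h1 := PiLp.norm_apply_le ((nn : ℝ) • x - bb d nn j - cc d) k
  have h2 : ((nn : ℝ) • x - bb d nn j - cc d) k =
      (nn : ℝ) * x k - (nn : ℝ) / 4 - (j k : ℝ) - 1 / 2 := by
    simp only [bb, cc, PiLp.sub_apply, PiLp.smul_apply, smul_eq_mul]
    ring
  rw [h2, Real.norm_eq_abs] at h1
  exact h1.trans hx

theorem disj {d nn : ℕ} {i j : Fin d → ℕ} {x : Ed d} (hij : i ≠ j)
    (h1 : (nn : ℝ) • x - bb d nn i ∈ closedBall (cc d) (1 / 4))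
    (h2 : (nn : ℝ) • x - bb d nn j ∈ closedBall (cc d) (1 / 4)) : False := by
  apply hij
  funext k
  have e1 := abs_le.1 (coord h1 k)
  have e2 := abs_le.1 (coord h2 k)
  have h3 : ((i k : ℝ)) < (j k : ℝ) + 1 := by linarith [e1.1, e1.2, e2.1, e2.2]
  have h4 : ((j k : ℝ)) < (i k : ℝ) + 1 := by linarith [e1.1, e1.2, e2.1, e2.2]
  have h3' : i k < j k + 1 := by exact_mod_cast h3
  have h4' : j k < i k + 1 := by exact_mod_cast h4
  omega

theorem norm_fj (d nn : ℕ) (hn : 0 < nn) (j : Fin d → ℕ) :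
    ‖el (fj d nn j) (fj_smooth d nn j).continuous (fj_compact d nn hn j)‖ ^ 2 =
      |((nn : ℝ) ^ d)⁻¹| * ∫ x, ‖F d x‖ ^ 2 := by
  rw [norm_el]
  exact integral_scale (fun x => ‖F d x‖ ^ 2) (nn : ℝ) (bb d nn j)

theorem norm_gj (d nn : ℕ) (hn : 0 < nn) (j : Fin d → ℕ) (k : Fin d) :
    ‖el (fun x => fderiv ℝ (fj d nn j) x (ev k)) (gj_cont d nn j k) (gj_compact d nn hn j k)‖ ^ 2 =
      (nn : ℝ) ^ 2 * (|((nn : ℝ) ^ d)⁻¹| * ∫ x, ‖fderiv ℝ (F d) x (ev k)‖ ^ 2) := by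
  rw [norm_el, ← integral_scale (fun x => ‖fderiv ℝ (F d) x (ev k)‖ ^ 2) (nn : ℝ) (bb d nn j),
    ← integral_const_mul]
  refine integral_congr_ae (Filter.Eventually.of_forall fun x => ?_)
  beta_reduce
  rw [fj_deriv, norm_smul, mul_pow]
  simp

theorem orth_f (d nn : ℕ) (hn : 0 < nn) (i j : Fin d → ℕ) (hij : i ≠ j) :
    ⟪el (fj d nn i) (fj_smooth d nn i).continuous (fj_compact d nn hn i),
      el (fj d nn j) (fj_smooth d nn j).continuous (fj_compact d nn hn j)⟫_ℂ = 0 := by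
  rw [inner_el]
  have : ∀ x, ⟪fj d nn i x, fj d nn j x⟫_ℂ = 0 := by
    intro x
    by_cases h1 : (nn : ℝ) • x - bb d nn i ∈ closedBall (cc d) (1 / 4)
    · have h2 : (nn : ℝ) • x - bb d nn j ∉ closedBall (cc d) (1 / 4) := fun h2 => disj hij h1 h2
      have h3 : fj d nn j x = 0 := F_zero h2
      rw [h3, inner_zero_right]
    · have h3 : fj d nn i x = 0 := F_zero h1
      rw [h3, inner_zero_left]
  simp only [this, integral_zero]

theorem orth_g (d nn : ℕ) (hn : 0 < nn) (i j : Fin d → ℕ) (hij : i ≠ j) (k : Fin d) :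
    ⟪el (fun x => fderiv ℝ (fj d nn i) x (ev k)) (gj_cont d nn i k) (gj_compact d nn hn i k),
      el (fun x => fderiv ℝ (fj d nn j) x (ev k)) (gj_cont d nn j k)
        (gj_compact d nn hn j k)⟫_ℂ = 0 := by
  rw [inner_el]
  have : ∀ x, ⟪fderiv ℝ (fj d nn i) x (ev k), fderiv ℝ (fj d nn j) x (ev k)⟫_ℂ = 0 := by
    intro x
    by_cases h1 : (nn : ℝ) • x - bb d nn i ∈ closedBall (cc d) (1 / 4)
    · have h2 : (nn : ℝ) • x - bb d nn j ∉ closedBall (cc d) (1 / 4) := fun h2 => disj hij h1 h2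
      rw [fj_deriv d nn j, F'_zero _ h2, smul_zero, inner_zero_right]
    · rw [fj_deriv d nn i, F'_zero _ h1, smul_zero, inner_zero_left]
  simp only [this, integral_zero]

theorem in_Q0 (d nn m : ℕ) (hn : 0 < nn) (hm : 2 * m ≤ nn) (j : Fin d → ℕ) (hj : ∀ k, j k < m)
    (x : Ed d) (hx : x ∉ Q0 d) : fj d nn j x = 0 := by
  by_contra h
  apply hx
  have h1 : (nn : ℝ) • x - bb d nn j ∈ closedBall (cc d) (1 / 4) := by
    by_contra h2
    exact h (F_zero h2)
  intro k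
  have e := abs_le.1 (coord h1 k)
  have hnn : (0 : ℝ) < nn := by exact_mod_cast hn
  have hj0 : (0 : ℝ) ≤ (j k : ℝ) := Nat.cast_nonneg _
  have hj1 : (j k : ℝ) + 1 ≤ m := by exact_mod_cast hj k
  have hm' : 2 * (m : ℝ) ≤ nn := by exact_mod_cast hm
  constructor
  · have : (nn : ℝ) * (1 / 4) ≤ nn * x k := by linarith [e.1]
    exact le_of_mul_le_mul_left this hnn
  · have : (nn : ℝ) * x k ≤ nn * (3 / 4) := by linarith [e.2]
    exact le_of_mul_le_mul_left this hnn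

/-! ## Main theorem -/

theorem bump : S_BUMP := by
  intro d hd
  set I0 : ℝ := ∫ x, ‖F d x‖ ^ 2 with hI0
  set I1 : ℝ := ∑ k, ∫ x, ‖fderiv ℝ (F d) x (ev k)‖ ^ 2 with hI1
  have hI0p : 0 < I0 := F_pos d
  have hI1p : 0 ≤ I1 := Finset.sum_nonneg fun k _ => integral_nonneg fun x => by positivity
  set C : ℝ := I1 / I0 + 1 with hC
  have hCp : 0 < C := by positivity
  refine ⟨(1 / (4 * Real.sqrt C)) ^ d, by positivity, ?_⟩
  intro M hM
  have hsq : 0 < Real.sqrt (M / C) := Real.sqrt_pos.2 (by positivity)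
  refine ⟨Real.sqrt (M / C) / 4, by positivity, ?_⟩
  intro h hh hh0
  set y : ℝ := Real.sqrt (M / C) / h with hy
  have hy4 : 4 < y := by
    rw [hy, lt_div_iff₀ hh]; linarith
  set nn : ℕ := ⌊y⌋₊ with hnn
  have hnn1 : (nn : ℝ) ≤ y := Nat.floor_le (by linarith)
  have hnn2 : y < nn + 1 := Nat.lt_floor_add_one y
  have hnnpos : 0 < nn := by
    have : (0 : ℝ) < nn := by linarith
    exact_mod_cast this
  set m : ℕ := nn / 2 with hm
  have hm2 : 2 * m ≤ nn := Nat.mul_div_le nn 2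
  have hm3 : nn ≤ 2 * m + 1 := by omega
  have hm3' : (nn : ℝ) ≤ 2 * m + 1 := by exact_mod_cast hm3
  have hmy : y / 4 ≤ m := by linarith
  let e : Fin (m ^ d) ≃ (Fin d → Fin m) := finFunctionFinEquiv.symm
  let jj : Fin (m ^ d) → (Fin d → ℕ) := fun i k => (e i k : ℕ)
  have hjj : ∀ i i', i ≠ i' → jj i ≠ jj i' := by
    intro i i' hne heq
    apply hne
    apply e.injective
    funext k
    exact Fin.ext (congrFun heq k)
  let θ : Fin (m ^ d) → L2d d := fun i =>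
    el (fj d nn (jj i)) (fj_smooth d nn (jj i)).continuous (fj_compact d nn hnnpos (jj i))
  let g : Fin (m ^ d) → Fin d → L2d d := fun i k =>
    el (fun x => fderiv ℝ (fj d nn (jj i)) x (ev k)) (gj_cont d nn (jj i) k)
      (gj_compact d nn hnnpos (jj i) k)
  have hκ : 0 < |((nn : ℝ) ^ d)⁻¹| := by
    have : (0 : ℝ) < nn := by exact_mod_cast hnnpos
    positivity
  have hθn : ∀ i, ‖θ i‖ ^ 2 = |((nn : ℝ) ^ d)⁻¹| * I0 := fun i => norm_fj d nn hnnpos (jj i)
  have hθo : Pairwise fun i j => ⟪θ i, θ j⟫_ℂ = 0 := fun i j hij =>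
    orth_f d nn hnnpos (jj i) (jj j) (hjj i j hij)
  have hgo : ∀ k, Pairwise fun i j => ⟪g i k, g j k⟫_ℂ = 0 := fun k i j hij =>
    orth_g d nn hnnpos (jj i) (jj j) (hjj i j hij) k
  have hgn : ∀ i, ∑ k, ‖g i k‖ ^ 2 = (nn : ℝ) ^ 2 * (|((nn : ℝ) ^ d)⁻¹| * I1) := by
    intro i
    rw [hI1, Finset.mul_sum, Finset.mul_sum]
    exact Finset.sum_congr rfl fun k _ => norm_gj d nn hnnpos (jj i) k
  refine ⟨m ^ d, θ, g, ?_, ?_, ?_, ?_, ?_⟩
  · -- the number
    have h1 : M ^ ((d : ℝ) / 2) = (Real.sqrt M) ^ d := by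
      rw [Real.sqrt_eq_rpow, ← Real.rpow_natCast, ← Real.rpow_mul hM.le]
      congr 1; ring
    have h2 : h ^ (-(d : ℝ)) = (1 / h) ^ d := by
      rw [Real.rpow_neg hh.le, Real.rpow_natCast, one_div, inv_pow]
    rw [h1, h2, ← mul_pow, ← mul_pow]
    push_cast
    have h3 : 1 / (4 * Real.sqrt C) * Real.sqrt M * (1 / h) = y / 4 := by
      rw [hy, Real.sqrt_div hM.le]
      field_simp
    rw [h3]
    exact pow_le_pow_left₀ (by linarith) hmy d
  · -- independence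
    refine linearIndependent_of_ne_zero_of_inner_eq_zero ?_ hθo
    intro i hi
    have := hθn i
    rw [hi] at this
    simp only [norm_zero] at this
    have h2 : 0 < |((nn : ℝ) ^ d)⁻¹| * I0 := by positivity
    rw [← this] at h2
    norm_num at h2
  · intro i
    exact isGrad_el (fj d nn (jj i)) (fj_smooth d nn (jj i)) (fj_compact d nn hnnpos (jj i))
      (gj_cont d nn (jj i)) (gj_compact d nn hnnpos (jj i))
  · intro i
    filter_upwards [el_ae (fj d nn (jj i)) (fj_smooth d nn (jj i)).continuous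
      (fj_compact d nn hnnpos (jj i))] with x hx hxQ
    rw [hx]
    exact in_Q0 d nn m hnnpos hm2 (jj i) (fun k => (e i k).2) x hxQ
  · intro s
    rw [norm_sum_sq s θ hθo]
    have h1 : ∑ k, ‖∑ i, s i • g i k‖ ^ 2 = ∑ i, ‖s i‖ ^ 2 * ∑ k, ‖g i k‖ ^ 2 := by
      calc ∑ k, ‖∑ i, s i • g i k‖ ^ 2 = ∑ k, ∑ i, ‖s i‖ ^ 2 * ‖g i k‖ ^ 2 :=
            Finset.sum_congr rfl fun k _ => norm_sum_sq s (fun i => g i k) (hgo k)
        _ = ∑ i, ‖s i‖ ^ 2 * ∑ k, ‖g i k‖ ^ 2 := by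
            rw [Finset.sum_comm]
            exact Finset.sum_congr rfl fun i _ => (Finset.mul_sum _ _ _).symm
    rw [h1, Finset.mul_sum, Finset.mul_sum]
    refine Finset.sum_le_sum fun i _ => ?_
    rw [hgn, hθn]
    have h2 : I1 ≤ C * I0 := by
      rw [hC, add_mul, div_mul_cancel₀ _ hI0p.ne']
      linarith
    have h3 : h ^ 2 * (nn : ℝ) ^ 2 * C ≤ M := by
      have h4 : (nn : ℝ) * h ≤ Real.sqrt (M / C) := by
        calc (nn : ℝ) * h ≤ y * h := mul_le_mul_of_nonneg_right hnn1 hh.le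
          _ = Real.sqrt (M / C) := by rw [hy]; field_simp
      have h5 : ((nn : ℝ) * h) ^ 2 ≤ M / C := by
        calc ((nn : ℝ) * h) ^ 2 ≤ (Real.sqrt (M / C)) ^ 2 :=
              pow_le_pow_left₀ (by positivity) h4 2
          _ = M / C := Real.sq_sqrt (by positivity)
      rw [le_div_iff₀ hCp] at h5
      linarith
    have h6 : 0 ≤ ‖s i‖ ^ 2 * |((nn : ℝ) ^ d)⁻¹| := by positivity
    calc h ^ 2 * (‖s i‖ ^ 2 * ((nn : ℝ) ^ 2 * (|((nn : ℝ) ^ d)⁻¹| * I1)))
        = (h ^ 2 * (nn : ℝ) ^ 2 * I1) * (‖s i‖ ^ 2 * |((nn : ℝ) ^ d)⁻¹|) := by ring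
      _ ≤ (h ^ 2 * (nn : ℝ) ^ 2 * (C * I0)) * (‖s i‖ ^ 2 * |((nn : ℝ) ^ d)⁻¹|) := by
          refine mul_le_mul_of_nonneg_right ?_ h6
          exact mul_le_mul_of_nonneg_left h2 (by positivity)
      _ = (h ^ 2 * (nn : ℝ) ^ 2 * C) * (I0 * (‖s i‖ ^ 2 * |((nn : ℝ) ^ d)⁻¹|)) := by ring
      _ ≤ M * (I0 * (‖s i‖ ^ 2 * |((nn : ℝ) ^ d)⁻¹|)) := by
          refine mul_le_mul_of_nonneg_right h3 ?_
          positivity
      _ = M * (‖s i‖ ^ 2 * (|((nn : ℝ) ^ d)⁻¹| * I0)) := by ring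

end

end Pool.Agent.W446.CP.Bump
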